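import Mathlib
import Pool.Agent.W78.GR.Basic
import Pool.Agent.W240.GA.A0

/-!
Task GR-16 (project GR, helper78, MP_391708_nt). Port of W240/GA/A0 to real quadratic orders:
mean of the window over primitive elements of the fundamental domain.
-/

set_option autoImplicit false

namespace Pool.Agent.W412.GR.A0

open Finset Filter
open Pool.Agent.H376R2.MR (w)
open Pool.Agent.W78.GR
open Pool.Agent.W240.GA.A0 (w_le_step step_le_w w_nonneg w_le_one bg_nonneg prime_sum)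

variable {t c : ℤ} {η : (Qd t c)ˣ}

lemma kap_pos (U : Un t c η) : 0 < kap η := by
  unfold kap
  exact div_pos U.rg_pos (sd_pos U.disc)

/-! ### the sum over all vectors -/

/-- the sum over all vectors -/
noncomputable def TT (η : (Qd t c)ˣ) (Y : ℝ) : ℝ := ∑ z ∈ ball η (Real.exp 1 * Y), bg Y z

lemma TT_nonneg (Y : ℝ) : 0 ≤ TT η Y := sum_nonneg fun z _ => bg_nonneg Y z

lemma step_sum (U : Un t c η) {Y θ : ℝ} (hY : 0 < Y) (ht : θ ≤ 1) :
    ∑ z ∈ ball η (Real.exp 1 * Y), (if -θ < Real.log (nm z) - Real.log Y ∧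
      Real.log (nm z) - Real.log Y ≤ θ then (1 : ℝ) else 0) / nm z =
    ∑ z ∈ ann η (Y * Real.exp (-θ)) (Y * Real.exp θ), 1 / (nm z : ℝ) := by
  have h1 : ann η (Y * Real.exp (-θ)) (Y * Real.exp θ) = (ball η (Real.exp 1 * Y)).filter
      (fun z => -θ < Real.log (nm z) - Real.log Y ∧ Real.log (nm z) - Real.log Y ≤ θ) := by
    ext z
    rw [U.mem_ann, mem_filter, U.mem_ball]
    by_cases hz : fd η z
    · have hz' : (0 : ℝ) < nm z := nm_posR U.disc hz.1
      have e1 : Y * Real.exp (-θ) < nm z ↔ -θ < Real.log (nm z) - Real.log Y := by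
        rw [lt_sub_iff_add_lt, ← Real.exp_lt_exp (x := -θ + Real.log Y), Real.exp_add,
          Real.exp_log hY, Real.exp_log hz', mul_comm]
      have e2 : (nm z : ℝ) ≤ Y * Real.exp θ ↔ Real.log (nm z) - Real.log Y ≤ θ := by
        rw [sub_le_iff_le_add, ← Real.exp_le_exp (y := θ + Real.log Y), Real.exp_add,
          Real.exp_log hY, Real.exp_log hz', mul_comm Y]
      rw [e1, e2]
      constructor
      · rintro ⟨a, b, c₁⟩
        refine ⟨⟨a, ?_⟩, b, c₁⟩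
        rw [← e2] at c₁
        refine c₁.trans ?_
        rw [mul_comm]
        exact mul_le_mul_of_nonneg_right (Real.exp_le_exp.2 ht) hY.le
      · rintro ⟨⟨a, -⟩, b, c₁⟩
        exact ⟨a, b, c₁⟩
    · constructor
      · rintro ⟨a, -⟩; exact absurd a hz
      · rintro ⟨⟨a, -⟩, -⟩; exact absurd a hz
  rw [h1, sum_filter]
  apply sum_congr rfl
  intro z _
  split_ifs <;> simp

lemma ann_bound {C : ℝ} (hC : 0 < C)
    (hl : ∀ A B : ℝ, 1 ≤ A → A ≤ B →
      |∑ z ∈ ann η A B, 1 / (nm z : ℝ) - kap η * Real.log (B / A)| ≤ C / Real.sqrt A)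
    {Y θ : ℝ} (hY : Real.exp 1 ≤ Y) (ht0 : 0 ≤ θ) (ht : θ ≤ 1) :
    |∑ z ∈ ann η (Y * Real.exp (-θ)) (Y * Real.exp θ), 1 / (nm z : ℝ) - 2 * kap η * θ| ≤
      C / Real.sqrt (Y / Real.exp 1) := by
  have hY0 : 0 < Y := (Real.exp_pos 1).trans_le hY
  have hA : Y / Real.exp 1 ≤ Y * Real.exp (-θ) := by
    rw [div_eq_mul_inv, ← Real.exp_neg]
    exact mul_le_mul_of_nonneg_left (Real.exp_le_exp.2 (by linarith)) hY0.le
  have hA1 : 1 ≤ Y / Real.exp 1 := by rwa [one_le_div (Real.exp_pos 1)]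
  have h1 := hl (Y * Real.exp (-θ)) (Y * Real.exp θ) (hA1.trans hA)
    (mul_le_mul_of_nonneg_left (Real.exp_le_exp.2 (by linarith)) hY0.le)
  have h2 : Real.log (Y * Real.exp θ / (Y * Real.exp (-θ))) = 2 * θ := by
    rw [mul_div_mul_left _ _ hY0.ne', ← Real.exp_sub, Real.log_exp]; ring
  rw [h2, show kap η * (2 * θ) = 2 * kap η * θ by ring] at h1
  refine h1.trans ?_
  apply div_le_div_of_nonneg_left hC.le (Real.sqrt_pos.2 (by linarith))
  exact Real.sqrt_le_sqrt hA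

lemma TT_le (U : Un t c η) {C : ℝ} (hC : 0 < C)
    (hl : ∀ A B : ℝ, 1 ≤ A → A ≤ B →
      |∑ z ∈ ann η A B, 1 / (nm z : ℝ) - kap η * Real.log (B / A)| ≤ C / Real.sqrt A)
    {Y : ℝ} (hY : Real.exp 1 ≤ Y) :
    TT η Y ≤ 21 / 20 * kap η + C / Real.sqrt (Y / Real.exp 1) := by
  have hY0 : 0 < Y := (Real.exp_pos 1).trans_le hY
  have h1 : TT η Y ≤ ∑ z ∈ ball η (Real.exp 1 * Y), ((1 / ((20 : ℕ) : ℝ)) * ∑ j ∈ Icc (1 : ℕ) 20,
      (if -((j : ℝ) / (20 : ℕ)) < Real.log (nm z) - Real.log Y ∧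
        Real.log (nm z) - Real.log Y ≤ (j : ℝ) / (20 : ℕ) then (1 : ℝ) else 0)) / nm z := by
    unfold TT
    apply sum_le_sum
    intro z _
    unfold bg
    exact div_le_div_of_nonneg_right (w_le_step 20 (by norm_num) _) (Nat.cast_nonneg _)
  have h2 : ∑ z ∈ ball η (Real.exp 1 * Y), ((1 / ((20 : ℕ) : ℝ)) * ∑ j ∈ Icc (1 : ℕ) 20,
      (if -((j : ℝ) / (20 : ℕ)) < Real.log (nm z) - Real.log Y ∧
        Real.log (nm z) - Real.log Y ≤ (j : ℝ) / (20 : ℕ) then (1 : ℝ) else 0)) / nm z =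
      (1 / ((20 : ℕ) : ℝ)) * ∑ j ∈ Icc (1 : ℕ) 20,
        ∑ z ∈ ann η (Y * Real.exp (-((j : ℝ) / (20 : ℕ)))) (Y * Real.exp ((j : ℝ) / (20 : ℕ))),
          1 / (nm z : ℝ) := by
    have h3 : ∀ j ∈ Icc (1 : ℕ) 20, ∑ z ∈ ann η (Y * Real.exp (-((j : ℝ) / (20 : ℕ))))
        (Y * Real.exp ((j : ℝ) / (20 : ℕ))), 1 / (nm z : ℝ) =
        ∑ z ∈ ball η (Real.exp 1 * Y), (if -((j : ℝ) / (20 : ℕ)) < Real.log (nm z) - Real.log Y ∧
        Real.log (nm z) - Real.log Y ≤ (j : ℝ) / (20 : ℕ) then (1 : ℝ) else 0) / nm z := by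
      intro j hj
      rw [mem_Icc] at hj
      rw [step_sum U hY0]
      have : (j : ℝ) ≤ 20 := by exact_mod_cast hj.2
      push_cast
      linarith
    rw [sum_congr rfl h3, sum_comm, mul_sum]
    apply sum_congr rfl
    intro z _
    rw [mul_div_assoc, sum_div]
  have h4 : ∀ j ∈ Icc (1 : ℕ) 20, ∑ z ∈ ann η (Y * Real.exp (-((j : ℝ) / (20 : ℕ))))
        (Y * Real.exp ((j : ℝ) / (20 : ℕ))), 1 / (nm z : ℝ) ≤
        2 * kap η * ((j : ℝ) / (20 : ℕ)) + C / Real.sqrt (Y / Real.exp 1) := by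
    intro j hj
    rw [mem_Icc] at hj
    have hj' : (j : ℝ) ≤ 20 := by exact_mod_cast hj.2
    have := (abs_le.1 (ann_bound hC hl hY (θ := (j : ℝ) / (20 : ℕ)) (by positivity)
      (by push_cast; linarith))).2
    linarith
  have h5 : ∑ j ∈ Icc (1 : ℕ) 20, (2 * kap η * ((j : ℝ) / (20 : ℕ)) + C / Real.sqrt (Y / Real.exp 1)) =
      21 * kap η + 20 * (C / Real.sqrt (Y / Real.exp 1)) := by
    rw [sum_add_distrib, ← mul_sum, ← sum_div, sum_const, Nat.card_Icc]
    have : ∑ j ∈ Icc (1 : ℕ) 20, (j : ℝ) = 210 := by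
      have : ∑ j ∈ Icc (1 : ℕ) 20, j = 210 := by decide
      rw [← Nat.cast_sum, this]
      norm_num
    rw [this]
    norm_num
    ring
  calc TT η Y ≤ _ := h1
    _ = _ := h2
    _ ≤ (1 / ((20 : ℕ) : ℝ)) * ∑ j ∈ Icc (1 : ℕ) 20,
        (2 * kap η * ((j : ℝ) / (20 : ℕ)) + C / Real.sqrt (Y / Real.exp 1)) :=
        mul_le_mul_of_nonneg_left (sum_le_sum h4) (by positivity)
    _ = _ := by rw [h5]; push_cast; ring

lemma le_TT (U : Un t c η) {C : ℝ} (hC : 0 < C)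
    (hl : ∀ A B : ℝ, 1 ≤ A → A ≤ B →
      |∑ z ∈ ann η A B, 1 / (nm z : ℝ) - kap η * Real.log (B / A)| ≤ C / Real.sqrt A)
    {Y : ℝ} (hY : Real.exp 1 ≤ Y) :
    19 / 20 * kap η - C / Real.sqrt (Y / Real.exp 1) ≤ TT η Y := by
  have hY0 : 0 < Y := (Real.exp_pos 1).trans_le hY
  have h1 : ∑ z ∈ ball η (Real.exp 1 * Y), ((1 / ((20 : ℕ) : ℝ)) * ∑ j ∈ range 20,
      (if -((j : ℝ) / (20 : ℕ)) < Real.log (nm z) - Real.log Y ∧
        Real.log (nm z) - Real.log Y ≤ (j : ℝ) / (20 : ℕ) then (1 : ℝ) else 0)) / nm z ≤ TT η Y := by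
    unfold TT
    apply sum_le_sum
    intro z _
    unfold bg
    exact div_le_div_of_nonneg_right (step_le_w 20 (by norm_num) _) (Nat.cast_nonneg _)
  have h2 : ∑ z ∈ ball η (Real.exp 1 * Y), ((1 / ((20 : ℕ) : ℝ)) * ∑ j ∈ range 20,
      (if -((j : ℝ) / (20 : ℕ)) < Real.log (nm z) - Real.log Y ∧
        Real.log (nm z) - Real.log Y ≤ (j : ℝ) / (20 : ℕ) then (1 : ℝ) else 0)) / nm z =
      (1 / ((20 : ℕ) : ℝ)) * ∑ j ∈ range 20,
        ∑ z ∈ ann η (Y * Real.exp (-((j : ℝ) / (20 : ℕ)))) (Y * Real.exp ((j : ℝ) / (20 : ℕ))),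
          1 / (nm z : ℝ) := by
    have h3 : ∀ j ∈ range 20, ∑ z ∈ ann η (Y * Real.exp (-((j : ℝ) / (20 : ℕ))))
        (Y * Real.exp ((j : ℝ) / (20 : ℕ))), 1 / (nm z : ℝ) =
        ∑ z ∈ ball η (Real.exp 1 * Y), (if -((j : ℝ) / (20 : ℕ)) < Real.log (nm z) - Real.log Y ∧
        Real.log (nm z) - Real.log Y ≤ (j : ℝ) / (20 : ℕ) then (1 : ℝ) else 0) / nm z := by
      intro j hj
      rw [mem_range] at hj
      rw [step_sum U hY0]
      have : (j : ℝ) ≤ 20 := by exact_mod_cast hj.le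
      push_cast
      linarith
    rw [sum_congr rfl h3, sum_comm, mul_sum]
    apply sum_congr rfl
    intro z _
    rw [mul_div_assoc, sum_div]
  have h4 : ∀ j ∈ range 20, 2 * kap η * ((j : ℝ) / (20 : ℕ)) - C / Real.sqrt (Y / Real.exp 1) ≤
      ∑ z ∈ ann η (Y * Real.exp (-((j : ℝ) / (20 : ℕ))))
        (Y * Real.exp ((j : ℝ) / (20 : ℕ))), 1 / (nm z : ℝ) := by
    intro j hj
    rw [mem_range] at hj
    have hj' : (j : ℝ) ≤ 20 := by exact_mod_cast hj.le
    have := (abs_le.1 (ann_bound hC hl hY (θ := (j : ℝ) / (20 : ℕ)) (by positivity)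
      (by push_cast; linarith))).1
    linarith
  have h5 : ∑ j ∈ range 20, (2 * kap η * ((j : ℝ) / (20 : ℕ)) - C / Real.sqrt (Y / Real.exp 1)) =
      19 * kap η - 20 * (C / Real.sqrt (Y / Real.exp 1)) := by
    rw [sum_sub_distrib, ← mul_sum, ← sum_div, sum_const, card_range]
    have : ∑ j ∈ range 20, (j : ℝ) = 190 := by
      have : ∑ j ∈ range 20, j = 190 := by decide
      rw [← Nat.cast_sum, this]
      norm_num
    rw [this]
    norm_num
    ring
  calc 19 / 20 * kap η - C / Real.sqrt (Y / Real.exp 1) = (1 / ((20 : ℕ) : ℝ)) * ∑ j ∈ range 20,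
        (2 * kap η * ((j : ℝ) / (20 : ℕ)) - C / Real.sqrt (Y / Real.exp 1)) := by
        rw [h5]; push_cast; ring
    _ ≤ _ := mul_le_mul_of_nonneg_left (sum_le_sum h4) (by positivity)
    _ = _ := h2.symm
    _ ≤ _ := h1

/-- uniform bound for the sum over all vectors -/
lemma TT_bdd (U : Un t c η) {C : ℝ} (hC : 0 < C)
    (hl : ∀ A B : ℝ, 1 ≤ A → A ≤ B →
      |∑ z ∈ ann η A B, 1 / (nm z : ℝ) - kap η * Real.log (B / A)| ≤ C / Real.sqrt A) :
    ∃ D : ℝ, 0 < D ∧ ∀ Y : ℝ, TT η Y ≤ D := by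
  refine ⟨max (21 / 20 * kap η + C) ((ball η (Real.exp 1 * Real.exp 1)).card : ℝ), ?_, ?_⟩
  · have := kap_pos U
    exact lt_max_of_lt_left (by positivity)
  intro Y
  rcases le_total (Real.exp 1) Y with h | h
  · refine (TT_le U hC hl h).trans (le_trans ?_ (le_max_left _ _))
    have h1 : 1 ≤ Real.sqrt (Y / Real.exp 1) := by
      rw [Real.one_le_sqrt, one_le_div (Real.exp_pos 1)]; exact h
    have : C / Real.sqrt (Y / Real.exp 1) ≤ C := div_le_self hC.le h1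
    linarith
  · refine le_trans ?_ (le_max_right _ _)
    unfold TT
    have h1 : ball η (Real.exp 1 * Y) ⊆ ball η (Real.exp 1 * Real.exp 1) := by
      intro z hz
      rw [U.mem_ball] at hz ⊢
      exact ⟨hz.1, hz.2.trans (mul_le_mul_of_nonneg_left h (Real.exp_pos 1).le)⟩
    calc ∑ z ∈ ball η (Real.exp 1 * Y), bg Y z ≤ ∑ z ∈ ball η (Real.exp 1 * Real.exp 1), bg Y z :=
          sum_le_sum_of_subset_of_nonneg h1 fun z _ _ => bg_nonneg Y z
      _ ≤ ∑ z ∈ ball η (Real.exp 1 * Real.exp 1), (1 : ℝ) := by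
          apply sum_le_sum
          intro z hz
          rw [U.mem_ball] at hz
          have hz1 : (1 : ℝ) ≤ nm z := one_le_nmR U.disc hz.1.1
          unfold bg
          rw [div_le_one (by linarith)]
          exact (w_le_one _).trans hz1
      _ = _ := by simp

/-! ### multiples of a prime -/

lemma sum_dvd (U : Un t c η) {Y : ℝ} (hY : 0 < Y) {p : ℕ} (hp : 0 < p) :
    (open scoped Classical in ∑ z ∈ (ball η (Real.exp 1 * Y)).filter (fun z => ((p : Qd t c)) ∣ z),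
      bg Y z) = 1 / (p : ℝ) ^ 2 * TT η (Y / (p : ℝ) ^ 2) := by
  classical
  have hp' : (0 : ℝ) < p := by exact_mod_cast hp
  rw [U.sum_dvd (tp_natCast hp) (Real.exp 1 * Y) (fun z => bg Y z)]
  have e0 : Real.exp 1 * Y / ((nm (p : Qd t c) : ℕ) : ℝ) = Real.exp 1 * (Y / (p : ℝ) ^ 2) := by
    rw [nm_natCast]; push_cast; ring
  rw [e0]
  unfold TT
  rw [mul_sum]
  apply sum_congr rfl
  intro z hz
  rw [U.mem_ball] at hz
  have hz1 : (0 : ℝ) < nm z := nm_posR U.disc hz.1.1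
  change bg Y (rep η ((p : Qd t c) * z)) = _
  rw [Un.bg_rep]
  unfold bg
  rw [nm_mul, nm_natCast]
  push_cast
  rw [Real.log_mul (by positivity) hz1.ne', Real.log_div hY.ne' (by positivity)]
  have : Real.log ((p : ℝ) ^ 2) + Real.log (nm z) - Real.log Y =
      Real.log (nm z) - (Real.log Y - Real.log ((p : ℝ) ^ 2)) := by ring
  rw [this]
  field_simp

theorem a0_of (U : Un t c η) : S_LAT t c η → S_A0 t c η := by
  classical
  rintro ⟨C, hC, -, hl'⟩
  have hl : ∀ A B : ℝ, 1 ≤ A → A ≤ B →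
      |∑ z ∈ ann η A B, 1 / (nm z : ℝ) - kap η * Real.log (B / A)| ≤ C / Real.sqrt A := by
    intro A B hA hAB
    have h := hl' A B 1 0 hA hAB le_rfl
    have e : (ann η A B).filter (lat 1 0) = ann η A B := by
      apply Finset.filter_true_of_mem
      intro z _
      unfold lat
      simp
    rw [e] at h
    simpa using h
  obtain ⟨D, hD0, hTD⟩ := TT_bdd U hC hl
  have hκ := kap_pos U
  set κ := kap η with hκdef
  set P : ℕ := ⌈200 * D / κ⌉₊ + 1 with hP
  have hP1 : 1 ≤ P := by omega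
  have hPD : 200 * D ≤ κ * P := by
    have := Nat.le_ceil (200 * D / κ)
    rw [div_le_iff₀ hκ] at this
    rw [hP]; push_cast; nlinarith
  have hPpos : (0 : ℝ) < P := by exact_mod_cast hP1
  have he := Real.exp_pos 1
  set Y₀ : ℝ := (P : ℝ) ^ 2 * Real.exp 1 * (1 + (100 * C / κ) ^ 2) with hY₀
  refine ⟨κ / 4, by positivity, Y₀, ?_⟩
  intro Y hY
  have hY0 : 0 < Y := lt_of_lt_of_le (by positivity) hY
  -- the window for small primes
  have hsmall : ∀ q : ℝ, 1 ≤ q → q ≤ P → Real.exp 1 ≤ Y / q ^ 2 ∧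
      C / Real.sqrt (Y / q ^ 2 / Real.exp 1) ≤ κ / 100 := by
    intro q hq1 hq2
    have hq0 : 0 < q := by linarith
    have h1 : Real.exp 1 * (1 + (100 * C / κ) ^ 2) ≤ Y / q ^ 2 := by
      rw [le_div_iff₀ (by positivity)]
      refine le_trans ?_ hY
      rw [hY₀]
      have : q ^ 2 ≤ (P : ℝ) ^ 2 := pow_le_pow_left₀ hq0.le hq2 2
      have h2 : 0 ≤ Real.exp 1 * (1 + (100 * C / κ) ^ 2) := by positivity
      nlinarith
    have h3 : 1 + (100 * C / κ) ^ 2 ≤ Y / q ^ 2 / Real.exp 1 := by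
      rw [le_div_iff₀ he]; linarith
    refine ⟨?_, ?_⟩
    · refine le_trans ?_ h1
      have : 0 ≤ (100 * C / κ) ^ 2 := by positivity
      nlinarith
    · have h4 : 100 * C / κ ≤ Real.sqrt (Y / q ^ 2 / Real.exp 1) := by
        apply Real.le_sqrt_of_sq_le
        linarith
      have h5 : 0 < 100 * C / κ := by positivity
      rw [div_le_iff₀ (by linarith)]
      rw [div_le_iff₀ hκ] at h4
      linarith
  have hY1 := hsmall 1 le_rfl (by exact_mod_cast hP1)
  rw [one_pow, div_one] at hY1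
  have hlow := le_TT U hC hl hY1.1
  -- decomposition
  set n : ℕ := ⌊Real.exp 1 * Y⌋₊ + 1 with hn
  have hdec : TT η Y = ∑ z ∈ pball η (Real.exp 1 * Y), bg Y z +
      ∑ z ∈ (ball η (Real.exp 1 * Y)).filter (fun z => ¬ prim z), bg Y z := by
    unfold TT pball
    rw [sum_filter_add_sum_filter_not]
  have hnp : ∑ z ∈ (ball η (Real.exp 1 * Y)).filter (fun z => ¬ prim z), bg Y z ≤
      ∑ p ∈ (range n).filter Nat.Prime, 1 / (p : ℝ) ^ 2 * TT η (Y / (p : ℝ) ^ 2) := by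
    have h1 : ∀ p ∈ (range n).filter Nat.Prime, 1 / (p : ℝ) ^ 2 * TT η (Y / (p : ℝ) ^ 2) =
        ∑ z ∈ ball η (Real.exp 1 * Y), (if ((p : Qd t c)) ∣ z then bg Y z else 0) := by
      intro p hp
      rw [mem_filter] at hp
      rw [← sum_dvd U hY0 hp.2.pos, sum_filter]
    rw [sum_congr rfl h1, sum_comm, sum_filter]
    apply sum_le_sum
    intro z hz
    rw [U.mem_ball] at hz
    have hnn : ∀ p ∈ (range n).filter Nat.Prime,
        0 ≤ (if ((p : Qd t c)) ∣ z then bg Y z else 0) := by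
      intro p _
      split_ifs
      · exact bg_nonneg Y z
      · exact le_rfl
    by_cases h : prim z
    · rw [if_neg (not_not.2 h)]
      exact sum_nonneg hnn
    · rw [if_pos h]
      rw [prim_iff] at h
      push Not at h
      obtain ⟨p, hp, hpz⟩ := h
      have h2 : p ^ 2 ∣ nm z := by
        have := nm_dvd hpz
        rwa [nm_natCast] at this
      have h3 : p ^ 2 ≤ nm z := Nat.le_of_dvd (nm_pos U.disc hz.1.1) h2
      have h4 : nm z ≤ ⌊Real.exp 1 * Y⌋₊ := Nat.le_floor hz.2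
      have h5 : p ≤ p ^ 2 := Nat.le_self_pow two_ne_zero p
      have hpm : p ∈ (range n).filter Nat.Prime := by
        rw [mem_filter, mem_range]
        exact ⟨by omega, hp⟩
      have h6 := single_le_sum hnn hpm
      rw [if_pos hpz] at h6
      exact h6
  have hterm : ∀ p ∈ (range n).filter Nat.Prime, 1 / (p : ℝ) ^ 2 * TT η (Y / (p : ℝ) ^ 2) ≤
      (21 / 20 * κ + κ / 100) * (1 / (p : ℝ) ^ 2) +
        (if P < p then D * ((p : ℝ) ^ 2)⁻¹ else 0) := by
    intro p hp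
    rw [mem_filter] at hp
    have hp1 : (1 : ℝ) ≤ p := by exact_mod_cast hp.2.one_lt.le
    have hp2 : 0 < 1 / (p : ℝ) ^ 2 := by positivity
    split_ifs with h
    · have h1 := hTD (Y / (p : ℝ) ^ 2)
      have h2 : 1 / (p : ℝ) ^ 2 * TT η (Y / (p : ℝ) ^ 2) ≤ 1 / (p : ℝ) ^ 2 * D :=
        mul_le_mul_of_nonneg_left h1 hp2.le
      have h3 : 1 / (p : ℝ) ^ 2 * D = D * ((p : ℝ) ^ 2)⁻¹ := by rw [one_div, mul_comm]
      have h4 : 0 ≤ (21 / 20 * κ + κ / 100) * (1 / (p : ℝ) ^ 2) := by positivity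
      linarith
    · have h1 := hsmall p hp1 (by exact_mod_cast not_lt.1 h)
      have h2 := TT_le U hC hl h1.1
      have h3 : TT η (Y / (p : ℝ) ^ 2) ≤ 21 / 20 * κ + κ / 100 := by linarith [h1.2]
      rw [add_zero, mul_comm]
      exact mul_le_mul_of_nonneg_right h3 hp2.le
  have htail : ∑ p ∈ (range n).filter Nat.Prime, (if P < p then D * ((p : ℝ) ^ 2)⁻¹ else 0) ≤
      κ / 100 := by
    calc ∑ p ∈ (range n).filter Nat.Prime, (if P < p then D * ((p : ℝ) ^ 2)⁻¹ else 0)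
        ≤ ∑ p ∈ range n, (if P < p then D * ((p : ℝ) ^ 2)⁻¹ else 0) := by
          apply sum_le_sum_of_subset_of_nonneg (filter_subset _ _)
          intro p _ _
          split_ifs
          · positivity
          · exact le_rfl
      _ = ∑ p ∈ (range n).filter (fun p => P < p), D * ((p : ℝ) ^ 2)⁻¹ := by rw [sum_filter]
      _ = D * ∑ p ∈ Ioo P n, ((p : ℝ) ^ 2)⁻¹ := by
          rw [mul_sum]
          apply sum_congr _ fun _ _ => rfl
          ext p
          simp only [mem_filter, mem_range, mem_Ioo]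
          tauto
      _ ≤ D * (2 / ((P : ℝ) + 1)) := mul_le_mul_of_nonneg_left (sum_Ioo_inv_sq_le P n) hD0.le
      _ ≤ κ / 100 := by
          rw [← mul_div_assoc, div_le_iff₀ (by positivity)]
          nlinarith
  have hsum : ∑ p ∈ (range n).filter Nat.Prime, 1 / (p : ℝ) ^ 2 * TT η (Y / (p : ℝ) ^ 2) ≤
      (21 / 20 * κ + κ / 100) * 0.4862 + κ / 100 := by
    refine (sum_le_sum hterm).trans ?_
    rw [sum_add_distrib, ← mul_sum]
    have := prime_sum n
    have h2 : (21 / 20 * κ + κ / 100) * ∑ p ∈ (range n).filter Nat.Prime, 1 / (p : ℝ) ^ 2 ≤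
        (21 / 20 * κ + κ / 100) * 0.4862 := mul_le_mul_of_nonneg_left this (by positivity)
    linarith
  have hfin : TT η Y - ((21 / 20 * κ + κ / 100) * 0.4862 + κ / 100) ≤
      ∑ z ∈ pball η (Real.exp 1 * Y), bg Y z := by linarith
  have h7 := hY1.2
  norm_num at *
  linarith

end Pool.Agent.W412.GR.A0

namespace Pool.Agent.W412.GR

open Pool.Agent.W78.GR

theorem a0_of {t c : ℤ} {η : (Qd t c)ˣ} (U : Un t c η) : S_LAT t c η → S_A0 t c η :=
  A0.a0_of U

end Pool.Agent.W412.GR
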